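import Mathlib
import Pool.Agent.TH858.GP.Four
import Pool.Agent.TH858.GP.Indep

/-!
# Chang's bound for dissociated frequencies, by Riesz products
-/

set_option autoImplicit false

namespace Pool.Agent.Q166.RF

open Finset Pool.Agent.TH858 Pool.Agent.TH858.GP

variable {N : ℕ} [NeZero N]

/-- The additive equivalence of `ℤ/N` with its dual group. -/
noncomputable def ee : ZMod N ≃+ AddChar (ZMod N) ℂ := AddChar.zmodAddEquiv

lemma ee_apply (g x : ZMod N) : ee g x = ψ (g * x) := by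
  unfold ee ψ
  rw [ZMod.stdAddChar_apply]
  rfl

lemma exp_le_cosh_add (t y : ℝ) (hy : |y| ≤ 1) :
    Real.exp (t * y) ≤ Real.cosh t + Real.sinh t * y := by
  have h := convexOn_exp.2 (Set.mem_univ t) (Set.mem_univ (-t))
    (show (0 : ℝ) ≤ (1 + y) / 2 by linarith [(abs_le.mp hy).1])
    (show (0 : ℝ) ≤ (1 - y) / 2 by linarith [(abs_le.mp hy).2]) (by ring)
  rw [smul_eq_mul, smul_eq_mul, smul_eq_mul, smul_eq_mul] at h
  have e1 : (1 + y) / 2 * t + (1 - y) / 2 * -t = t * y := by ring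
  rw [e1] at h
  refine h.trans (le_of_eq ?_)
  rw [Real.cosh_eq, Real.sinh_eq]
  ring

lemma re_ψ_abs (c : ZMod N) : |(ψ c).re| ≤ 1 := by
  have := Complex.abs_re_le_norm (ψ c)
  rw [ψ_norm] at this
  exact this

/-- The Riesz product. -/
lemma riesz (Λ : Finset (ZMod N)) (hdis : AddDissociated (Λ : Set (ZMod N))) (c s : ℝ) :
    ∑ x : ZMod N, ∏ g ∈ Λ, (c + s * (ψ (g * x)).re) = N * c ^ Λ.card := by
  classical
  have hd : AddDissociated {χ : AddChar (ZMod N) ℂ |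
      (if ee.symm χ ∈ Λ then (s : ℂ) else 0) ≠ 0} := by
    have h1 := (AddEquiv.addDissociated_preimage (s := (Λ : Set (ZMod N)))
      (e := (ee (N := N)).symm)).2 hdis
    refine h1.subset ?_
    intro χ hχ
    by_contra hn
    have : ee.symm χ ∉ Λ := fun h => hn h
    simp [this] at hχ
  have h := AddDissociated.randomisation (G := ZMod N)
    (fun χ => if ee.symm χ ∈ Λ then c else 1) (fun χ => if ee.symm χ ∈ Λ then (s : ℂ) else 0) hd
  have key : ∀ x : ZMod N, (∏ χ : AddChar (ZMod N) ℂ, ((if ee.symm χ ∈ Λ then c else 1) +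
      ((if ee.symm χ ∈ Λ then (s : ℂ) else 0) * χ x).re)) = ∏ g ∈ Λ, (c + s * (ψ (g * x)).re) := by
    intro x
    rw [← Equiv.prod_comp (ee (N := N)).toEquiv]
    rw [← Finset.prod_subset (Finset.subset_univ Λ)]
    · refine Finset.prod_congr rfl fun g hg => ?_
      have e1 : (ee (N := N)).toEquiv g = ee g := rfl
      rw [e1, AddEquiv.symm_apply_apply, if_pos hg, if_pos hg, ee_apply, Complex.re_ofReal_mul]
    · intro g _ hg
      have e1 : (ee (N := N)).toEquiv g = ee g := rfl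
      rw [e1, AddEquiv.symm_apply_apply, if_neg hg, if_neg hg]
      simp
  have key2 : (∏ χ : AddChar (ZMod N) ℂ, (if ee.symm χ ∈ Λ then c else 1)) = c ^ Λ.card := by
    rw [← Equiv.prod_comp (ee (N := N)).toEquiv]
    rw [← Finset.prod_subset (Finset.subset_univ Λ)]
    · rw [← Finset.prod_const]
      refine Finset.prod_congr rfl fun g hg => ?_
      have e1 : (ee (N := N)).toEquiv g = ee g := rfl
      rw [e1, AddEquiv.symm_apply_apply, if_pos hg]
    · intro g _ hg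
      have e1 : (ee (N := N)).toEquiv g = ee g := rfl
      rw [e1, AddEquiv.symm_apply_apply, if_neg hg]
  simp_rw [key] at h
  rw [key2, Fintype.expect_eq_sum_div_card, ZMod.card] at h
  have hN : (N : ℝ) ≠ 0 := Nat.cast_ne_zero.mpr (NeZero.ne N)
  field_simp at h
  linarith

/-- **Chang's bound.** -/
theorem chang (T : Finset (ZMod N)) (hT : T.Nonempty) (τ : ℝ) (hτ : 0 < τ) (Λ : Finset (ZMod N))
    (hdis : AddDissociated (Λ : Set (ZMod N)))
    (hspec : ∀ g ∈ Λ, τ * T.card ≤ ∑ x ∈ T, (ψ (g * x)).re) :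
    τ ^ 2 * Λ.card ≤ 2 * Real.log (N / T.card) := by
  have hTpos : (0 : ℝ) < T.card := by exact_mod_cast hT.card_pos
  have hNpos : (0 : ℝ) < N := by exact_mod_cast Nat.pos_of_ne_zero (NeZero.ne N)
  have h1 : ∑ x ∈ T, Real.exp (τ * ∑ g ∈ Λ, (ψ (g * x)).re) ≤ N * Real.cosh τ ^ Λ.card := by
    rw [← riesz Λ hdis (Real.cosh τ) (Real.sinh τ)]
    have hnn : ∀ x : ZMod N, Real.exp (τ * ∑ g ∈ Λ, (ψ (g * x)).re) ≤
        ∏ g ∈ Λ, (Real.cosh τ + Real.sinh τ * (ψ (g * x)).re) := by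
      intro x
      rw [mul_sum, Real.exp_sum]
      exact Finset.prod_le_prod (fun g _ => (Real.exp_pos _).le)
        fun g _ => exp_le_cosh_add _ _ (re_ψ_abs _)
    calc ∑ x ∈ T, Real.exp (τ * ∑ g ∈ Λ, (ψ (g * x)).re)
        ≤ ∑ x ∈ T, ∏ g ∈ Λ, (Real.cosh τ + Real.sinh τ * (ψ (g * x)).re) :=
          Finset.sum_le_sum fun x _ => hnn x
      _ ≤ ∑ x : ZMod N, ∏ g ∈ Λ, (Real.cosh τ + Real.sinh τ * (ψ (g * x)).re) :=
          Finset.sum_le_sum_of_subset_of_nonneg (Finset.subset_univ T)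
            fun x _ _ => (Real.exp_pos _).le.trans (hnn x)
  -- Jensen
  have h2 : T.card * Real.exp (τ ^ 2 * Λ.card) ≤
      ∑ x ∈ T, Real.exp (τ * ∑ g ∈ Λ, (ψ (g * x)).re) := by
    have hJ := convexOn_exp.map_sum_le (t := T) (w := fun _ => 1 / (T.card : ℝ))
      (p := fun x => τ * ∑ g ∈ Λ, (ψ (g * x)).re) (fun _ _ => by positivity)
      (by rw [Finset.sum_const, nsmul_eq_mul]; field_simp) (fun _ _ => Set.mem_univ _)
    simp only [smul_eq_mul] at hJ
    rw [← mul_sum, ← mul_sum] at hJ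
    have h3 : τ ^ 2 * Λ.card ≤ 1 / (T.card : ℝ) * (τ * ∑ x ∈ T, ∑ g ∈ Λ, (ψ (g * x)).re) := by
      rw [Finset.sum_comm]
      have h4 : (Λ.card : ℝ) * (τ * T.card) ≤ ∑ g ∈ Λ, ∑ x ∈ T, (ψ (g * x)).re := by
        rw [← nsmul_eq_mul, ← Finset.sum_const]
        exact Finset.sum_le_sum hspec
      have h5 : τ ^ 2 * Λ.card = 1 / (T.card : ℝ) * (τ * ((Λ.card : ℝ) * (τ * T.card))) := by
        field_simp
      rw [h5]
      gcongr
    have h6 := (Real.exp_le_exp.2 h3).trans hJ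
    rw [← mul_sum, one_div, inv_mul_eq_div, le_div_iff₀ hTpos] at h6
    linarith
  have h3 : Real.cosh τ ^ Λ.card ≤ Real.exp (τ ^ 2 / 2 * Λ.card) := by
    have := Real.cosh_le_exp_half_sq τ
    calc Real.cosh τ ^ Λ.card ≤ Real.exp (τ ^ 2 / 2) ^ Λ.card := by
          gcongr
      _ = Real.exp (τ ^ 2 / 2 * Λ.card) := by
          rw [← Real.exp_nat_mul]; congr 1; ring
  have h4 : T.card * Real.exp (τ ^ 2 * Λ.card) ≤ N * Real.exp (τ ^ 2 / 2 * Λ.card) :=
    h2.trans (h1.trans (by gcongr))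
  have h5 : Real.exp (τ ^ 2 / 2 * Λ.card) ≤ N / T.card := by
    rw [le_div_iff₀ hTpos]
    have e : Real.exp (τ ^ 2 * Λ.card) =
        Real.exp (τ ^ 2 / 2 * Λ.card) * Real.exp (τ ^ 2 / 2 * Λ.card) := by
      rw [← Real.exp_add]; congr 1; ring
    rw [e] at h4
    have hp := Real.exp_pos (τ ^ 2 / 2 * Λ.card)
    have h7 : (T.card * Real.exp (τ ^ 2 / 2 * Λ.card)) * Real.exp (τ ^ 2 / 2 * Λ.card) ≤
        N * Real.exp (τ ^ 2 / 2 * Λ.card) := by linarith
    have := le_of_mul_le_mul_right h7 hp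
    linarith
  have h6 := Real.log_le_log (Real.exp_pos _) h5
  rw [Real.log_exp] at h6
  linarith

end Pool.Agent.Q166.RF
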