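import Mathlib
import Pool.Agent.Q166.RF.Chang

/-!
# Spectra and Bohr sets
-/

set_option autoImplicit false

namespace Pool.Agent.Q166.RF

open Finset Pool.Agent.TH858 Pool.Agent.TH858.GP

variable {N : ℕ} [NeZero N]

lemma nint_le_abs (a : ℝ) (z : ℤ) : CB.nint a ≤ |a - z| := by
  unfold CB.nint
  exact round_le a z

lemma nn_add (a b : ZMod N) : CB.nn (a + b) ≤ CB.nn a + CB.nn b := by
  rw [← CB.nint_eq_nn ((a.val : ℤ) + (b.val : ℤ)) (a + b) (by simp)]
  refine (nint_le_abs _ (round ((a.val : ℝ) / N) + round ((b.val : ℝ) / N))).trans ?_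
  unfold CB.nn CB.nint
  push_cast
  calc |((a.val : ℝ) + b.val) / N - (round ((a.val : ℝ) / N) + round ((b.val : ℝ) / N))|
      = |((a.val : ℝ) / N - round ((a.val : ℝ) / N)) + ((b.val : ℝ) / N - round ((b.val : ℝ) / N))| := by
        congr 1; ring
    _ ≤ _ := abs_add_le _ _

lemma nn_neg (a : ZMod N) : CB.nn (-a) ≤ CB.nn a := by
  rw [← CB.nint_eq_nn (-(a.val : ℤ)) (-a) (by simp)]
  refine (nint_le_abs _ (-round ((a.val : ℝ) / N))).trans (le_of_eq ?_)
  unfold CB.nn CB.nint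
  push_cast
  rw [← abs_neg]
  congr 1
  ring

lemma nn_zero : CB.nn (0 : ZMod N) = 0 := by
  unfold CB.nn CB.nint
  simp

lemma nn_nonneg (a : ZMod N) : 0 ≤ CB.nn a := CB.nint_nonneg _

lemma nn_sum {ι : Type*} (s : Finset ι) (f : ι → ZMod N) :
    CB.nn (∑ i ∈ s, f i) ≤ ∑ i ∈ s, CB.nn (f i) := by
  classical
  induction s using Finset.induction_on with
  | empty => simp [nn_zero]
  | insert a s ha ih =>
    rw [sum_insert ha, sum_insert ha]
    exact (nn_add _ _).trans (by linarith)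

lemma nn_sign (e : ℤ) (he : e = -1 ∨ e = 0 ∨ e = 1) (a : ZMod N) : CB.nn ((e : ZMod N) * a) ≤ CB.nn a := by
  rcases he with rfl | rfl | rfl
  · simpa using nn_neg a
  · simp only [Int.cast_zero, zero_mul, nn_zero]
    exact nn_nonneg a
  · simp

/-- A set of frequencies that are all aligned on a set `T` of density `β` is contained in the span of
few of them. -/
lemma few (T : Finset (ZMod N)) (hT : T.Nonempty) (τ : ℝ) (hτ : 0 < τ) (Γ : Finset (ZMod N))
    (hspec : ∀ g ∈ Γ, τ * T.card ≤ ∑ x ∈ T, (ψ (g * x)).re) :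
    ∃ Λ : Finset (ZMod N), Λ ⊆ Γ ∧ τ ^ 2 * Λ.card ≤ 2 * Real.log (N / T.card) ∧
      ∀ (x : ZMod N) (ε : ℝ), (∀ l ∈ Λ, CB.nn (l * x) ≤ ε) → ∀ g ∈ Γ, CB.nn (g * x) ≤ Λ.card * ε := by
  have hTpos : (0 : ℝ) < T.card := by exact_mod_cast hT.card_pos
  have hlog : 0 ≤ Real.log (N / T.card) := by
    apply Real.log_nonneg
    rw [le_div_iff₀ hTpos, one_mul]
    have := Finset.card_le_univ T
    rw [ZMod.card] at this
    exact_mod_cast this
  obtain ⟨Λ, h1, h2, h3⟩ := Finset.exists_subset_addSpan_card_le_of_forall_addDissociated (s := Γ)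
    (d := ⌊2 * Real.log (N / T.card) / τ ^ 2⌋₊) (fun s hs hd => by
      apply Nat.le_floor
      rw [le_div_iff₀ (by positivity)]
      have := chang T hT τ hτ s hd (fun g hg => hspec g (hs hg))
      linarith)
  refine ⟨Λ, h1, ?_, ?_⟩
  · have h4 : (Λ.card : ℝ) ≤ 2 * Real.log (N / T.card) / τ ^ 2 :=
      (Nat.cast_le.2 h2).trans (Nat.floor_le (by positivity))
    rw [le_div_iff₀ (by positivity)] at h4
    linarith
  · intro x ε hx g hg
    obtain ⟨e, he, hsum⟩ := Finset.mem_addSpan.1 (h3 hg)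
    rw [← hsum, Finset.sum_mul]
    refine (nn_sum _ _).trans ?_
    rw [← nsmul_eq_mul, ← Finset.sum_const]
    refine Finset.sum_le_sum fun l hl => ?_
    rw [zsmul_eq_mul, mul_assoc]
    exact (nn_sign _ (he l) _).trans (hx l hl)

/-- Parseval for real functions. -/
lemma parseval (g : ZMod N → ℝ) (x : ZMod N) :
    ∑ c : ZMod N, ‖∑ y, (g y : ℂ) * ψ (c * y)‖ ^ 2 * (ψ (c * x)).re = N * ∑ y, g y * g (y + x) := by
  have h0 : ∀ c : ZMod N, ((‖∑ y, (g y : ℂ) * ψ (c * y)‖ ^ 2 : ℝ) : ℂ) =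
      ∑ p : ZMod N × ZMod N, (g p.1 : ℂ) * (g p.2 : ℂ) * ψ (c * (p.1 - p.2)) := by
    intro c
    have h1 : ((‖∑ y, (g y : ℂ) * ψ (c * y)‖ ^ 2 : ℝ) : ℂ) =
        (∑ y, (g y : ℂ) * ψ (c * y)) * (starRingEnd ℂ) (∑ y, (g y : ℂ) * ψ (c * y)) := by
      rw [Complex.mul_conj, Complex.normSq_eq_norm_sq]
    rw [h1, map_sum, sum_mul_sum, ← Fintype.sum_prod_type']
    refine sum_congr rfl fun p _ => ?_
    rw [map_mul, ← ψ_neg, Complex.conj_ofReal]
    have : ψ (c * (p.1 - p.2)) = ψ (c * p.1) * ψ (-(c * p.2)) := by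
      rw [← ψ_add]; congr 1; ring
    rw [this]
    ring
  have h1 : ∑ c : ZMod N, ((‖∑ y, (g y : ℂ) * ψ (c * y)‖ ^ 2 : ℝ) : ℂ) * ψ (c * x) =
      (N : ℂ) * ((∑ y, g y * g (y + x) : ℝ) : ℂ) := by
    calc ∑ c : ZMod N, ((‖∑ y, (g y : ℂ) * ψ (c * y)‖ ^ 2 : ℝ) : ℂ) * ψ (c * x)
        = ∑ c : ZMod N, ∑ p : ZMod N × ZMod N,
            (g p.1 : ℂ) * (g p.2 : ℂ) * ψ (c * (p.1 - p.2 + x)) := by
          refine sum_congr rfl fun c _ => ?_
          rw [h0, sum_mul]
          refine sum_congr rfl fun p _ => ?_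
          rw [mul_assoc, ← ψ_add]; congr 2; ring
      _ = ∑ p : ZMod N × ZMod N, ∑ c : ZMod N,
            (g p.1 : ℂ) * (g p.2 : ℂ) * ψ (c * (p.1 - p.2 + x)) := sum_comm
      _ = ∑ p : ZMod N × ZMod N, (if p.2 = p.1 + x then (N : ℂ) * ((g p.1 : ℂ) * (g p.2 : ℂ)) else 0) := by
          refine sum_congr rfl fun p _ => ?_
          rw [← mul_sum]
          have := AddChar.sum_mulShift (R' := ℂ) (p.1 - p.2 + x) (ZMod.isPrimitive_stdAddChar N)
          rw [ZMod.card] at this
          rw [this]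
          have e : (p.1 - p.2 + x = 0) ↔ (p.2 = p.1 + x) := by
            constructor
            · intro h
              have : p.1 + x - p.2 = 0 := by rw [← h]; ring
              exact (sub_eq_zero.1 this).symm
            · intro h; rw [h]; ring
          by_cases hp : p.2 = p.1 + x
          · rw [if_pos hp, if_pos (e.2 hp)]; ring
          · rw [if_neg hp, if_neg (fun h => hp (e.1 h))]; simp
      _ = ∑ y, (N : ℂ) * ((g y : ℂ) * (g (y + x) : ℂ)) := by
          rw [Fintype.sum_prod_type]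
          refine sum_congr rfl fun y _ => ?_
          simp
      _ = (N : ℂ) * ((∑ y, g y * g (y + x) : ℝ) : ℂ) := by
          push_cast
          rw [mul_sum]
  have h2 := congrArg Complex.re h1
  rw [Complex.re_sum] at h2
  have h3 : ((N : ℂ) * ((∑ y, g y * g (y + x) : ℝ) : ℂ)).re = N * ∑ y, g y * g (y + x) := by
    have : (N : ℂ) = ((N : ℝ) : ℂ) := by simp
    rw [this, Complex.re_ofReal_mul, Complex.ofReal_re]
  rw [h3] at h2
  rw [← h2]
  refine sum_congr rfl fun c _ => ?_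
  rw [Complex.re_ofReal_mul]

/-- **Many almost periods give a Bohr set.** -/
theorem periods (g : ZMod N → ℝ) (hg0 : ∃ z, g z ≠ 0) (δ : ℝ) (hδ : 0 < δ) (hδ2 : δ ≤ 1 / 2)
    (T : Finset (ZMod N)) (hT : T.Nonempty)
    (hper : ∀ x ∈ T, (1 / 2 + δ) * ∑ z, g z ^ 2 ≤ ∑ z, g z * g (z + x)) :
    ∃ Λ : Finset (ZMod N), (Λ.card : ℝ) ≤ 2 / δ ^ 2 * Real.log (N / T.card) ∧
      ∀ (x : ZMod N) (ε : ℝ), (∀ l ∈ Λ, CB.nn (l * x) ≤ ε) → Λ.card * ε ≤ δ / 5 →
        ∃ z, g z ≠ 0 ∧ g (z + x) ≠ 0 := by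
  classical
  have hNpos : (0 : ℝ) < N := by exact_mod_cast Nat.pos_of_ne_zero (NeZero.ne N)
  have hTpos : (0 : ℝ) < T.card := by exact_mod_cast hT.card_pos
  set w : ZMod N → ℝ := fun c => ‖∑ y, (g y : ℂ) * ψ (c * y)‖ ^ 2 with hw
  have hw0 : ∀ c, 0 ≤ w c := fun c => by positivity
  set E : ℝ := ∑ z, g z ^ 2 with hE
  have hEpos : 0 < E := by
    obtain ⟨z, hz⟩ := hg0
    exact Finset.sum_pos' (fun z _ => by positivity) ⟨z, Finset.mem_univ _, by positivity⟩
  have hpar : ∀ x, ∑ c, w c * (ψ (c * x)).re = N * ∑ y, g y * g (y + x) := parseval g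
  have htot : ∑ c, w c = N * E := by
    have := hpar 0
    simp only [mul_zero, ψ_zero, Complex.one_re, mul_one, add_zero] at this
    rw [this, hE]
    congr 1
    exact Finset.sum_congr rfl fun z _ => by ring
  -- the average of the character over `T`
  set t : ZMod N → ℝ := fun c => ∑ x ∈ T, (ψ (c * x)).re with ht
  have hle : ∀ c, t c ≤ T.card := by
    intro c
    rw [ht]
    simp only
    calc ∑ x ∈ T, (ψ (c * x)).re ≤ ∑ x ∈ T, (1 : ℝ) :=
          Finset.sum_le_sum fun x _ => (abs_le.1 (re_ψ_abs _)).2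
      _ = T.card := by simp
  have h1 : (1 / 2 + δ) * (N * E) * T.card ≤ ∑ c, w c * t c := by
    have e : ∑ c, w c * t c = ∑ x ∈ T, ∑ c, w c * (ψ (c * x)).re := by
      rw [Finset.sum_comm]
      exact Finset.sum_congr rfl fun c _ => by rw [ht, Finset.mul_sum]
    rw [e]
    calc (1 / 2 + δ) * (N * E) * T.card = ∑ x ∈ T, (1 / 2 + δ) * (N * E) := by
          rw [Finset.sum_const, nsmul_eq_mul]; ring
      _ ≤ ∑ x ∈ T, ∑ c, w c * (ψ (c * x)).re := by
          refine Finset.sum_le_sum fun x hx => ?_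
          rw [hpar x]
          have := mul_le_mul_of_nonneg_left (hper x hx) hNpos.le
          linarith
  set Γ : Finset (ZMod N) := Finset.univ.filter fun c => δ * T.card ≤ t c with hΓ
  -- the mass outside of `Γ`
  set m : ℝ := ∑ c ∈ Γᶜ, w c with hm
  have h2 : (1 - δ) * m ≤ (1 / 2 - δ) * (N * E) := by
    have h3 : ∑ c, w c * t c ≤ T.card * ∑ c, w c - (1 - δ) * T.card * m := by
      rw [← Finset.sum_add_sum_compl Γ (fun c => w c * t c),
        ← Finset.sum_add_sum_compl Γ w]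
      have a1 : ∑ c ∈ Γ, w c * t c ≤ T.card * ∑ c ∈ Γ, w c := by
        rw [Finset.mul_sum]
        exact Finset.sum_le_sum fun c _ => by
          have := mul_le_mul_of_nonneg_left (hle c) (hw0 c); linarith
      have a2 : ∑ c ∈ Γᶜ, w c * t c ≤ δ * T.card * m := by
        rw [hm, Finset.mul_sum]
        refine Finset.sum_le_sum fun c hc => ?_
        have h5 : t c ≤ δ * T.card := by
          have : c ∉ Γ := Finset.mem_compl.1 hc
          rw [hΓ, Finset.mem_filter] at this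
          push Not at this
          exact (this (Finset.mem_univ _)).le
        have := mul_le_mul_of_nonneg_left h5 (hw0 c); linarith
      rw [← hm]
      nlinarith
    rw [htot] at h3
    have h4 : T.card * ((1 - δ) * m) ≤ T.card * ((1 / 2 - δ) * (N * E)) := by linarith
    exact le_of_mul_le_mul_left h4 hTpos
  obtain ⟨Λ, -, hΛ, hspan⟩ := few T hT δ hδ Γ (fun c hc => by
    rw [hΓ, Finset.mem_filter] at hc; exact hc.2)
  refine ⟨Λ, ?_, ?_⟩
  · have : (Λ.card : ℝ) = (δ ^ 2 * Λ.card) / δ ^ 2 := by field_simp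
    rw [this, div_mul_eq_mul_div]
    gcongr
  intro x ε hx hε
  have h5 : 0 < ∑ y, g y * g (y + x) := by
    have h6 : 0 < ∑ c, w c * (ψ (c * x)).re := by
      rw [← Finset.sum_add_sum_compl Γ]
      have a1 : (1 - δ) * ∑ c ∈ Γ, w c ≤ ∑ c ∈ Γ, w c * (ψ (c * x)).re := by
        rw [Finset.mul_sum]
        refine Finset.sum_le_sum fun c hc => ?_
        have h7 : CB.nn (c * x) ≤ δ / 5 := (hspan x ε hx c hc).trans hε
        have h8 : 1 - δ ≤ (ψ (c * x)).re := by
          rw [re_ψ_nn]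
          refine le_trans ?_ (Real.one_sub_sq_div_two_le_cos (x := 2 * Real.pi * CB.nn (c * x)))
          have h9 := nn_nonneg (c * x)
          have h10 : Real.pi < 3.15 := Real.pi_lt_d2
          have h11 := Real.pi_pos
          have h12 : 2 * Real.pi * CB.nn (c * x) ≤ 6.3 * (δ / 5) := by
            calc 2 * Real.pi * CB.nn (c * x) ≤ 2 * 3.15 * (δ / 5) := by gcongr
              _ = 6.3 * (δ / 5) := by norm_num
          have h13 : (2 * Real.pi * CB.nn (c * x)) ^ 2 ≤ (6.3 * (δ / 5)) ^ 2 := by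
            gcongr
          nlinarith
        have := mul_le_mul_of_nonneg_left h8 (hw0 c); linarith
      have a2 : -m ≤ ∑ c ∈ Γᶜ, w c * (ψ (c * x)).re := by
        rw [hm, ← Finset.sum_neg_distrib]
        refine Finset.sum_le_sum fun c _ => ?_
        have h8 : -1 ≤ (ψ (c * x)).re := (abs_le.1 (re_ψ_abs _)).1
        have := mul_le_mul_of_nonneg_left h8 (hw0 c); linarith
      have a3 : ∑ c ∈ Γ, w c = N * E - m := by
        rw [← htot, hm, ← Finset.sum_add_sum_compl Γ w]; ring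
      have hNE : 0 < N * E := by positivity
      rw [a3] at a1
      have a4 : 0 < (1 - δ) * ((1 - δ) * (N * E - m) - m) := by
        have e1 : (1 - δ) * ((1 - δ) * (N * E - m) - m) =
            (1 - δ) ^ 2 * (N * E) - (2 - δ) * ((1 - δ) * m) := by ring
        rw [e1]
        have e2 : (2 - δ) * ((1 - δ) * m) ≤ (2 - δ) * ((1 / 2 - δ) * (N * E)) :=
          mul_le_mul_of_nonneg_left h2 (by linarith)
        have e3 : (1 - δ) ^ 2 * (N * E) - (2 - δ) * ((1 / 2 - δ) * (N * E)) = δ / 2 * (N * E) := by ring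
        have e4 : 0 < δ / 2 * (N * E) := by positivity
        linarith
      have a5 := (pos_iff_pos_of_mul_pos a4).1 (by linarith)
      linarith
    rw [hpar x] at h6
    exact (pos_iff_pos_of_mul_pos h6).1 hNpos
  by_contra hcon
  push Not at hcon
  have : ∑ y, g y * g (y + x) = 0 := by
    refine Finset.sum_eq_zero fun y _ => ?_
    by_cases hy : g y = 0
    · rw [hy, zero_mul]
    · rw [hcon y hy, mul_zero]
  linarith

/-- Small sumset with a large set gives many almost periods. -/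
lemma count_periods (S B : Finset (ZMod N)) (b b₀ : ZMod N) (hb : b ∈ B) (hb₀ : b₀ ∈ B) :
    2 * (S.card : ℝ) - ((Finset.image₂ (· + ·) S B).card : ℝ) ≤
      ((S.filter fun z => z + (b - b₀) ∈ S).card : ℝ) := by
  classical
  have h1 : ((S.image (· + b)) ∪ (S.image (· + b₀))) ⊆ Finset.image₂ (· + ·) S B := by
    intro y hy
    rw [Finset.mem_union, Finset.mem_image, Finset.mem_image] at hy
    rcases hy with ⟨s, hs, rfl⟩ | ⟨s, hs, rfl⟩
    · exact Finset.mem_image₂.2 ⟨s, hs, b, hb, rfl⟩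
    · exact Finset.mem_image₂.2 ⟨s, hs, b₀, hb₀, rfl⟩
  have h2 := Finset.card_union_add_card_inter (S.image (· + b)) (S.image (· + b₀))
  rw [Finset.card_image_of_injective _ (add_left_injective b),
    Finset.card_image_of_injective _ (add_left_injective b₀)] at h2
  have h3 := Finset.card_le_card h1
  have h4 : ((S.image (· + b)) ∩ (S.image (· + b₀))) ⊆
      (S.filter fun z => z + (b - b₀) ∈ S).image (· + b) := by
    intro y hy
    rw [Finset.mem_inter, Finset.mem_image, Finset.mem_image] at hy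
    obtain ⟨⟨s, hs, rfl⟩, s', hs', he⟩ := hy
    refine Finset.mem_image.2 ⟨s, Finset.mem_filter.2 ⟨hs, ?_⟩, rfl⟩
    have : s + (b - b₀) = s' := by
      have h5 : s + b = s' + b₀ := he.symm
      calc s + (b - b₀) = (s + b) - b₀ := by ring
        _ = s' := by rw [h5]; ring
    rw [this]; exact hs'
  have h5 := Finset.card_le_card h4
  rw [Finset.card_image_of_injective _ (add_left_injective b)] at h5
  have h6 : S.card + S.card ≤ (Finset.image₂ (· + ·) S B).card +
      (S.filter fun z => z + (b - b₀) ∈ S).card := by omega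
  have h7 : (S.card : ℝ) + S.card ≤ (Finset.image₂ (· + ·) S B).card +
      (S.filter fun z => z + (b - b₀) ∈ S).card := by exact_mod_cast h6
  linarith

end Pool.Agent.Q166.RF
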