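import Mathlib
import Pool.Agent.Q166.RF.Span

/-!
# Rank reduction for Bohr sets
-/

set_option autoImplicit false

namespace Pool.Agent.Q166.RF

open Finset Pool.Agent.TH858 Pool.Agent.TH858.GP

variable {N : ℕ} [NeZero N]

/-- The Bohr set as a finset. -/
noncomputable def BS (Γ : Finset (ZMod N)) (ε : ℝ) : Finset (ZMod N) :=
  Finset.univ.filter fun x => ∀ g ∈ Γ, CB.nn (g * x) ≤ ε

lemma mem_BS {Γ : Finset (ZMod N)} {ε : ℝ} {x : ZMod N} : x ∈ BS Γ ε ↔ ∀ g ∈ Γ, CB.nn (g * x) ≤ ε := by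
  simp [BS]

lemma BS_nonempty (Γ : Finset (ZMod N)) {ε : ℝ} (hε : 0 ≤ ε) : (BS Γ ε).Nonempty :=
  ⟨0, mem_BS.2 fun g _ => by rw [mul_zero, nn_zero]; exact hε⟩

/-- The size of a Bohr set. -/
lemma card_BS (Γ : Finset (ZMod N)) (M : ℕ) (hM : 0 < M) :
    (N : ℝ) ≤ M ^ Γ.card * (BS Γ (1 / M)).card := by
  classical
  have hMR : (0 : ℝ) < M := by exact_mod_cast hM
  -- the cell of `x`
  let cell : ZMod N → (Γ → Fin M) := fun x g =>
    ⟨⌊(((g : ZMod N) * x).val : ℝ) / N * M⌋₊ % M, Nat.mod_lt _ hM⟩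
  obtain ⟨q, hq, hbig⟩ : ∃ q ∈ (Finset.univ : Finset (Γ → Fin M)),
      (N : ℝ) / (M ^ Γ.card : ℝ) ≤ ((Finset.univ.filter fun x : ZMod N => cell x = q).card : ℝ) := by
    by_contra hcon
    push Not at hcon
    have h1 : (Finset.univ : Finset (ZMod N)).card =
        ∑ q ∈ (Finset.univ : Finset (Γ → Fin M)), (Finset.univ.filter fun x : ZMod N => cell x = q).card :=
      Finset.card_eq_sum_card_fiberwise (fun x _ => Finset.mem_coe.2 (Finset.mem_univ _))
    have h2 : (∑ q ∈ (Finset.univ : Finset (Γ → Fin M)),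
        ((Finset.univ.filter fun x : ZMod N => cell x = q).card : ℝ)) <
        ∑ q ∈ (Finset.univ : Finset (Γ → Fin M)), (N : ℝ) / (M ^ Γ.card : ℝ) := by
      have : Nonempty (Γ → Fin M) := ⟨fun _ => ⟨0, hM⟩⟩
      exact Finset.sum_lt_sum_of_nonempty Finset.univ_nonempty fun q hq => hcon q hq
    rw [Finset.sum_const, Finset.card_univ, Fintype.card_fun, Fintype.card_fin, Fintype.card_coe,
      nsmul_eq_mul] at h2
    have h3 : (N : ℝ) = ∑ q ∈ (Finset.univ : Finset (Γ → Fin M)),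
        ((Finset.univ.filter fun x : ZMod N => cell x = q).card : ℝ) := by
      rw [Finset.card_univ, ZMod.card] at h1
      exact_mod_cast h1
    rw [← h3] at h2
    push_cast at h2
    have h4 : (M : ℝ) ^ Γ.card * ((N : ℝ) / M ^ Γ.card) = N := by field_simp
    rw [h4] at h2
    exact lt_irrefl _ h2
  set F := Finset.univ.filter fun x : ZMod N => cell x = q with hF
  have hNpos : (0 : ℝ) < N := by exact_mod_cast Nat.pos_of_ne_zero (NeZero.ne N)
  have hFne : F.Nonempty := by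
    rw [← Finset.card_pos]
    have : (0 : ℝ) < (F.card : ℝ) := lt_of_lt_of_le (by positivity) hbig
    exact_mod_cast this
  obtain ⟨x0, hx0⟩ := hFne
  have hsub : F.image (fun x => x - x0) ⊆ BS Γ (1 / M) := by
    intro y hy
    obtain ⟨x, hx, rfl⟩ := Finset.mem_image.1 hy
    rw [mem_BS]
    intro g hg
    have hc : cell x = cell x0 := by
      rw [hF, Finset.mem_filter] at hx hx0
      rw [hx.2, hx0.2]
    have hval := congrArg Fin.val (congrFun hc ⟨g, hg⟩)
    have hlt : ∀ z : ZMod N, ⌊((g * z).val : ℝ) / N * M⌋₊ < M := by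
      intro z
      rw [Nat.floor_lt (by positivity)]
      have : ((g * z).val : ℝ) / N < 1 := by
        rw [div_lt_one hNpos]; exact_mod_cast ZMod.val_lt (g * z)
      nlinarith
    have hfl : ⌊((g * x).val : ℝ) / N * M⌋₊ = ⌊((g * x0).val : ℝ) / N * M⌋₊ := by
      have := hval
      simp only [cell] at this
      rwa [Nat.mod_eq_of_lt (hlt x), Nat.mod_eq_of_lt (hlt x0)] at this
    have e : g * (x - x0) = ((((g * x).val : ℤ) - ((g * x0).val : ℤ) : ℤ) : ZMod N) := by
      push_cast; simp [mul_sub]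
    rw [← CB.nint_eq_nn _ _ e.symm]
    refine (nint_le_abs _ 0).trans ?_
    have a1 := Nat.floor_le (show (0 : ℝ) ≤ ((g * x).val : ℝ) / N * M by positivity)
    have a2 := Nat.lt_floor_add_one (((g * x).val : ℝ) / N * M)
    have b1 := Nat.floor_le (show (0 : ℝ) ≤ ((g * x0).val : ℝ) / N * M by positivity)
    have b2 := Nat.lt_floor_add_one (((g * x0).val : ℝ) / N * M)
    rw [hfl] at a1 a2
    have h5 : |(((g * x).val : ℝ) / N - ((g * x0).val : ℝ) / N) * M| ≤ 1 := by
      rw [abs_le]; constructor <;> nlinarith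
    rw [abs_mul, abs_of_pos hMR] at h5
    push_cast
    rw [sub_zero, sub_div, le_div_iff₀ hMR]
    exact h5
  have h6 : F.card ≤ (BS Γ (1 / M)).card := by
    rw [← Finset.card_image_of_injective F (f := fun x => x - x0) (sub_left_injective)]
    exact Finset.card_le_card hsub
  have h7 : (F.card : ℝ) ≤ (BS Γ (1 / M)).card := by exact_mod_cast h6
  have h8 := hbig.trans h7
  rw [div_le_iff₀ (by positivity)] at h8
  linarith

lemma BS_mono (Γ : Finset (ZMod N)) {ε ε' : ℝ} (h : ε ≤ ε') : BS Γ ε ⊆ BS Γ ε' := by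
  intro x hx
  rw [mem_BS] at hx ⊢
  exact fun g hg => (hx g hg).trans h

/-- Changing the radius of a Bohr set (from the theorem on convex Bohr sets). -/
lemma radius (Λ : Finset (ZMod N)) (ε : ℝ) (hε : 0 < ε) (hε1 : ε ≤ 1) (R : ℝ) (hR : (Λ.card : ℝ) + 2 ≤ R) :
    ∃ Γ : Finset (ZMod N),
      (Γ.card : ℝ) ≤ 24 * Λ.card + 4 * (Real.log (N / (BS Λ ε).card) / Real.log R) ∧
      BS Γ (1 / (8 * R)) ⊆ BS Λ ε := by
  classical
  have hR0 : 0 < R := by have := Nat.cast_nonneg (α := ℝ) Λ.card; linarith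
  let e := Λ.equivFin
  let γ : Fin Λ.card → ZMod N := fun k => (e.symm k : ZMod N)
  obtain ⟨Γ, h1, h2⟩ := CB.main (N := N) γ {y | ∀ k, |y k| ≤ ε}
    (by
      intro y hy z hz a b ha hb hab k
      rw [Pi.add_apply, Pi.smul_apply, Pi.smul_apply, smul_eq_mul, smul_eq_mul]
      calc |a * y k + b * z k| ≤ |a * y k| + |b * z k| := abs_add_le _ _
        _ = a * |y k| + b * |z k| := by rw [abs_mul, abs_mul, abs_of_nonneg ha, abs_of_nonneg hb]
        _ ≤ a * ε + b * ε := by
            have := mul_le_mul_of_nonneg_left (hy k) ha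
            have := mul_le_mul_of_nonneg_left (hz k) hb
            linarith
        _ = ε := by rw [← add_mul, hab, one_mul])
    (by
      intro y hy k
      rw [Pi.neg_apply, abs_neg]; exact hy k)
    R hR (BS Λ ε) (BS_nonempty Λ hε.le) (by
      intro x
      rw [mem_BS]
      constructor
      · intro hx
        refine ⟨fun k => ((γ k * x).val : ℝ) / N - round (((γ k * x).val : ℝ) / N), ?_, ?_⟩
        · intro k
          exact hx _ (e.symm k).2
        · intro k
          refine ⟨?_, -round (((γ k * x).val : ℝ) / N), by push_cast; ring⟩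
          have h3 := hx _ (e.symm k).2
          have h4 : CB.nn (γ k * x) = |((γ k * x).val : ℝ) / N - round (((γ k * x).val : ℝ) / N)| := rfl
          have h5 := Nat.cast_nonneg (α := ℝ) Λ.card
          calc |((γ k * x).val : ℝ) / N - round (((γ k * x).val : ℝ) / N)| ≤ ε := h3
            _ ≤ R := by linarith
      · rintro ⟨y, hy, hy2⟩ g hg
        have hk : γ (e ⟨g, hg⟩) = g := by simp [γ]
        obtain ⟨-, z, hz⟩ := hy2 (e ⟨g, hg⟩)
        rw [hk] at hz
        unfold CB.nn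
        have h3 := nint_le_abs (((g * x).val : ℝ) / N) (-z)
        refine h3.trans ?_
        push_cast
        rw [sub_neg_eq_add, ← hz]
        exact hy _)
  refine ⟨Γ, h1, fun x hx => ?_⟩
  exact h2 x (mem_BS.1 hx)

/-- **Rank reduction.** A Bohr set of any rank, of radius `ρ ≤ 1/6` and of density `β`, contains a Bohr set of
radius `1 / (8 R)` with at most `log (1/β) (256 + 32 log (1/ρ) / log R)` frequencies. -/
theorem reduction (Γ₀ : Finset (ZMod N)) (ρ : ℝ) (hρ : 0 < ρ) (hρ6 : ρ ≤ 1 / 6) (R : ℝ)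
    (hR : 8 * Real.log (N / (BS Γ₀ ρ).card) + 2 ≤ R) :
    ∃ Γ : Finset (ZMod N),
      (Γ.card : ℝ) ≤ Real.log (N / (BS Γ₀ ρ).card) * (256 + 32 * (Real.log (1 / ρ) / Real.log R)) ∧
      BS Γ (1 / (8 * R)) ⊆ BS Γ₀ ρ := by
  have hNpos : (0 : ℝ) < N := by exact_mod_cast Nat.pos_of_ne_zero (NeZero.ne N)
  have hne := BS_nonempty Γ₀ hρ.le
  have hBpos : (0 : ℝ) < (BS Γ₀ ρ).card := by exact_mod_cast hne.card_pos
  have hlog : 0 ≤ Real.log (N / (BS Γ₀ ρ).card) := by
    apply Real.log_nonneg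
    rw [le_div_iff₀ hBpos, one_mul]
    have := Finset.card_le_univ (BS Γ₀ ρ)
    rw [ZMod.card] at this
    exact_mod_cast this
  set l := Real.log (N / (BS Γ₀ ρ).card) with hl
  have hR2 : 2 ≤ R := by linarith
  have hlogR : 0 < Real.log R := Real.log_pos (by linarith)
  have hlogρ : 0 ≤ Real.log (1 / ρ) := by
    apply Real.log_nonneg
    rw [le_div_iff₀ hρ]; linarith
  obtain ⟨Λ, -, hΛ, hspan⟩ := few (BS Γ₀ ρ) hne (1 / 2) (by norm_num) Γ₀ (fun g hg => by
    have h1 : ∀ x ∈ BS Γ₀ ρ, (1 / 2 : ℝ) ≤ (ψ (g * x)).re := by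
      intro x hx
      have h2 := mem_BS.1 hx g hg
      rw [re_ψ_nn]
      have h9 : Real.cos (Real.pi / 3) ≤ Real.cos (2 * Real.pi * CB.nn (g * x)) := by
        apply Real.cos_le_cos_of_nonneg_of_le_pi
        · have := nn_nonneg (g * x); positivity
        · linarith [Real.pi_pos]
        · nlinarith [Real.pi_pos]
      rw [Real.cos_pi_div_three] at h9
      exact h9
    calc 1 / 2 * ((BS Γ₀ ρ).card : ℝ) = ∑ x ∈ BS Γ₀ ρ, (1 / 2 : ℝ) := by
          rw [Finset.sum_const, nsmul_eq_mul]; ring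
      _ ≤ _ := Finset.sum_le_sum h1)
  have hd : (Λ.card : ℝ) ≤ 8 * l := by
    rw [← hl] at hΛ
    linarith
  rcases Nat.eq_zero_or_pos Λ.card with h0 | hpos
  · -- everything is in the Bohr set
    refine ⟨∅, ?_, ?_⟩
    · rw [Finset.card_empty, Nat.cast_zero]
      have h2 : 0 ≤ Real.log (1 / ρ) / Real.log R := by positivity
      positivity
    intro x _
    rw [mem_BS]
    intro g hg
    have h3 := hspan x 0 (fun l hl => by
      rw [Finset.card_eq_zero] at h0
      rw [h0] at hl; simp at hl) g hg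
    rw [h0] at h3
    simp at h3
    linarith
  have hdpos : (1 : ℝ) ≤ Λ.card := by exact_mod_cast hpos
  have hdR : (Λ.card : ℝ) + 2 ≤ R := by linarith
  set d : ℝ := (Λ.card : ℝ) with hdd
  set ε : ℝ := ρ / d with hε
  have hε0 : 0 < ε := by positivity
  have hε1 : ε ≤ 1 := by
    rw [hε, div_le_one (by linarith)]; linarith
  obtain ⟨Γ, hΓ, hΓ'⟩ := radius Λ ε hε0 hε1 R hdR
  -- the size of the Bohr set of `Λ`
  set M : ℕ := ⌈1 / ε⌉₊ with hM
  have hMpos : 0 < M := Nat.ceil_pos.2 (by positivity)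
  have hMR : (0 : ℝ) < M := by exact_mod_cast hMpos
  have hMle : (M : ℝ) ≤ R ^ 2 * (1 / ρ) := by
    have h1 : (M : ℝ) ≤ 1 / ε + 1 := (Nat.ceil_lt_add_one (by positivity)).le
    have h2 : 1 / ε = d / ρ := by rw [hε]; field_simp
    have h3 : 1 ≤ 1 / ρ := by rw [le_div_iff₀ hρ]; linarith
    have h4 : d / ρ = d * (1 / ρ) := by ring
    rw [h2, h4] at h1
    have h5 : d * (1 / ρ) + 1 ≤ (d + 1) * (1 / ρ) := by linarith
    have h6 : d + 1 ≤ R ^ 2 := by nlinarith
    calc (M : ℝ) ≤ (d + 1) * (1 / ρ) := by linarith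
      _ ≤ R ^ 2 * (1 / ρ) := by gcongr
  have hMε : 1 / (M : ℝ) ≤ ε := by
    have h1 : 1 / ε ≤ M := Nat.le_ceil _
    rw [div_le_iff₀ hε0] at h1
    rw [div_le_iff₀ hMR]
    linarith
  have hcard : (N : ℝ) / (BS Λ ε).card ≤ (M : ℝ) ^ Λ.card := by
    have h1 := card_BS Λ M hMpos
    have h2 : ((BS Λ (1 / M)).card : ℝ) ≤ (BS Λ ε).card := by
      exact_mod_cast Finset.card_le_card (BS_mono Λ hMε)
    have h3 : (0 : ℝ) < (BS Λ ε).card := by exact_mod_cast (BS_nonempty Λ hε0.le).card_pos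
    rw [div_le_iff₀ h3]
    exact h1.trans (by gcongr)
  have hlogcard : Real.log (N / (BS Λ ε).card) ≤ d * (2 * Real.log R + Real.log (1 / ρ)) := by
    have h3 : (0 : ℝ) < (BS Λ ε).card := by exact_mod_cast (BS_nonempty Λ hε0.le).card_pos
    have h1 := Real.log_le_log (by positivity) hcard
    rw [Real.log_pow] at h1
    have h2 := Real.log_le_log hMR hMle
    rw [Real.log_mul (by positivity) (by positivity), Real.log_pow] at h2
    push_cast at h2
    calc Real.log (N / (BS Λ ε).card) ≤ d * Real.log M := h1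
      _ ≤ d * (2 * Real.log R + Real.log (1 / ρ)) := by gcongr
  refine ⟨Γ, ?_, ?_⟩
  · have h1 : Real.log (N / (BS Λ ε).card) / Real.log R ≤ d * (2 + Real.log (1 / ρ) / Real.log R) := by
      rw [div_le_iff₀ hlogR]
      refine hlogcard.trans (le_of_eq ?_)
      field_simp
    have h2 : 0 ≤ Real.log (1 / ρ) / Real.log R := by positivity
    calc (Γ.card : ℝ) ≤ 24 * d + 4 * (Real.log (N / (BS Λ ε).card) / Real.log R) := hΓ
      _ ≤ 24 * d + 4 * (d * (2 + Real.log (1 / ρ) / Real.log R)) := by gcongr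
      _ = d * (32 + 4 * (Real.log (1 / ρ) / Real.log R)) := by ring
      _ ≤ (8 * l) * (32 + 4 * (Real.log (1 / ρ) / Real.log R)) := by gcongr
      _ = l * (256 + 32 * (Real.log (1 / ρ) / Real.log R)) := by ring
  · refine hΓ'.trans ?_
    intro x hx
    rw [mem_BS] at hx ⊢
    intro g hg
    have h1 := hspan x ε hx g hg
    have h2 : (Λ.card : ℝ) * ε = ρ := by
      rw [← hdd, hε]; field_simp
    rw [h2] at h1
    exact h1

end Pool.Agent.Q166.RF
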