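import Mathlib
import Pool.Agent.Q166.RF.Red
import Pool.Agent.TH858.GP.Coset
import Pool.Agent.H112R2.Gap

/-!
# Bohr sets of any rank and of small radius
-/

set_option autoImplicit false

namespace Pool.Agent.Q166.RF

open Finset Pool.Agent.TH858 Pool.Agent.TH858.GP H112

variable {N : ℕ} [NeZero N]

/-- The character `x ↦ γ x / N`. -/
noncomputable def chi (γ : ZMod N) : ZMod N →+ UnitAddCircle :=
  (ZMod.toAddCircle).comp (AddMonoidHom.mulLeft γ)

lemma norm_chi (γ x : ZMod N) : ‖chi γ x‖ = CB.nn (γ * x) := by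
  show ‖ZMod.toAddCircle (γ * x)‖ = _
  rw [ZMod.toAddCircle_apply, UnitAddCircle.norm_eq]
  rfl

/-- The set of characters of `Γ`. -/
noncomputable def SS (Γ : Finset (ZMod N)) : Set (ZMod N →+ UnitAddCircle) := chi '' (Γ : Set (ZMod N))

lemma mem_SS (Γ : Finset (ZMod N)) (r : ℝ) (x : ZMod N) : x ∈ H112.bohr (SS Γ) r ↔ x ∈ BS Γ r := by
  rw [mem_BS]
  constructor
  · intro h g hg
    rw [← norm_chi]
    exact h (chi g) ⟨g, hg, rfl⟩
  · rintro h _ ⟨g, hg, rfl⟩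
    rw [norm_chi]
    exact h g hg

/-- A Bohr set of any rank contains a large proper coset progression whose dimension is bounded by the growth. -/
theorem core (Γ₀ : Finset (ZMod N)) (ρ : ℝ) (hρ : 0 < ρ) (hρ6 : ρ ≤ 1 / 6) (M t : ℕ)
    (ht : (3 * M * t + 1) * ρ ≤ 1 / 6)
    (hM : Real.log (N / (BS Γ₀ ρ).card) < M * Real.log (t + 1)) :
    ∃ (k : ℕ) (a : Fin k → ZMod N) (L : Fin k → ℕ) (H : AddSubgroup (ZMod N)), k < M ∧
      (∀ n n' : Fin k → ℤ, (∀ i, |n i| ≤ L i) → (∀ i, |n' i| ≤ L i) → ev a n - ev a n' ∈ H → n = n') ∧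
      ((BS Γ₀ ρ).card : ℝ) ≤ (4 * (k : ℝ) ^ 3) ^ k * (Nat.card H * (box L).card) ∧
      (∀ y ∈ H, ∀ n : Fin k → ℤ, (∀ i, |n i| ≤ L i) → y + ev a n ∈ BS Γ₀ ρ) := by
  classical
  have hNpos : (0 : ℝ) < N := by exact_mod_cast Nat.pos_of_ne_zero (NeZero.ne N)
  set S := SS Γ₀ with hS
  obtain ⟨m, Nm, ψ', h0, h1, h2, hspan⟩ := H112.lattice_repr S (Set.toFinite _) hρ.le hρ6
  have hfin : (LL Nm (1 / 6)).Finite := gap_finite S (Set.toFinite _) Nm ψ' h0 h1
  have hfinr : ∀ r : ℝ, r ≤ 1 / 6 → (LL Nm r).Finite := fun r hr => hfin.subset (gap_LL_mono Nm hr)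
  let F : (Fin m → ℤ) × ZMod N → ZMod N := fun p => ψ' p.1 + p.2
  have hann : ∀ y ∈ ann S, y ∈ H112.bohr S 0 := by
    intro y hy γ hγ
    rw [hy γ hγ, norm_zero]
  have hann' : ∀ y, y ∈ H112.bohr S 0 → y ∈ ann S := by
    intro y hy γ hγ
    have := hy γ hγ
    exact norm_le_zero_iff.1 this
  -- the size of the Bohr set
  have hA : (BS Γ₀ ρ).card ≤ (LL Nm ρ).ncard * Nat.card (ann S) := by
    have hsub : (BS Γ₀ ρ : Set (ZMod N)) ⊆ F '' ((LL Nm ρ) ×ˢ (ann S : Set (ZMod N))) := by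
      intro x hx
      have hx' : x ∈ H112.bohr S ρ := (mem_SS Γ₀ ρ x).2 hx
      obtain ⟨c, hc, hxc⟩ := h2 x hx'
      exact ⟨(c, x - ψ' c), ⟨hc, hxc⟩, by simp [F]⟩
    have hfp : ((LL Nm ρ) ×ˢ (ann S : Set (ZMod N))).Finite := (hfinr ρ hρ6).prod (Set.toFinite _)
    have h3 := Set.ncard_le_ncard hsub (hfp.image _)
    rw [Set.ncard_coe_finset] at h3
    refine h3.trans ((Set.ncard_image_le hfp).trans ?_)
    rw [Set.ncard_prod]
    rfl
  have hB : ∀ s : ℝ, s ≤ 1 / 6 → (LL Nm s).ncard * Nat.card (ann S) ≤ N := by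
    intro s hs
    have hinj : Set.InjOn F ((LL Nm s) ×ˢ (ann S : Set (ZMod N))) := by
      rintro ⟨c, y⟩ ⟨hc, hy⟩ ⟨c', y'⟩ ⟨hc', hy'⟩ heq
      have heq' : ψ' c + y = ψ' c' + y' := heq
      have h3 : ψ' (c - c') = y' - y := by
        rw [map_sub, sub_eq_sub_iff_add_eq_add, heq', add_comm]
      have h4 : ψ' (c - c') ∈ ann S := by
        rw [h3]; exact (ann S).sub_mem hy' hy
      have h5 := gap_LL_sub Nm hc hc'
      have h6 : Nm (fun i => (((c - c') i : ℤ) : ℝ)) < 1 / 2 :=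
        lt_of_le_of_lt h5 (by linarith)
      have h7 := gap_LL_eq_zero Nm h0 ((h1 _ h6 0 le_rfl).1 (hann _ h4))
      have h8 : c = c' := sub_eq_zero.1 h7
      subst h8
      have h9 : y = y' := add_left_cancel heq'
      rw [h9]
    have h3 := hinj.ncard_image
    have h4 := Set.ncard_le_card (F '' ((LL Nm s) ×ˢ (ann S : Set (ZMod N))))
    rw [h3, Set.ncard_prod, Nat.card_eq_fintype_card, ZMod.card] at h4
    exact h4
  have hBpos : (0 : ℝ) < (BS Γ₀ ρ).card := by exact_mod_cast (BS_nonempty Γ₀ hρ.le).card_pos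
  -- the dimension
  have hmM : m < M := by
    by_contra hcon
    push Not at hcon
    have h3 := dim_growth Nm hρ.le hspan hcon (t := t) (hfinr _ ht)
    have h4 := hB _ ht
    have h5 : (t + 1) ^ M * (BS Γ₀ ρ).card ≤ N := by
      calc (t + 1) ^ M * (BS Γ₀ ρ).card ≤ (t + 1) ^ M * ((LL Nm ρ).ncard * Nat.card (ann S)) :=
            Nat.mul_le_mul_left _ hA
        _ = ((t + 1) ^ M * (LL Nm ρ).ncard) * Nat.card (ann S) := by ring
        _ ≤ (LL Nm ((3 * M * t + 1) * ρ)).ncard * Nat.card (ann S) := Nat.mul_le_mul_right _ h3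
        _ ≤ N := h4
    have h6 : ((t : ℝ) + 1) ^ M * (BS Γ₀ ρ).card ≤ N := by exact_mod_cast h5
    have h7 : ((t : ℝ) + 1) ^ M ≤ N / (BS Γ₀ ρ).card := by
      rw [le_div_iff₀ hBpos]; exact h6
    have h8 := Real.log_le_log (by positivity) h7
    rw [Real.log_pow] at h8
    linarith
  obtain ⟨k, v, L, hkm, hli, hgap, hcard⟩ := discrete_john Nm hρ.le (hfinr ρ hρ6)
  have hev : ∀ n : Fin k → ℤ, ev (fun i => ψ' (v i)) n = ψ' (∑ i, n i • v i) := by
    intro n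
    unfold ev
    rw [map_sum]
    exact Finset.sum_congr rfl fun i _ => by rw [map_zsmul, zsmul_eq_mul]
  refine ⟨k, fun i => ψ' (v i), L, ann S, lt_of_le_of_lt hkm hmM, ?_, ?_, ?_⟩
  · intro n n' hn hn' hmem
    rw [hev, hev, ← map_sub] at hmem
    have h5 := gap_LL_sub Nm (hgap n hn) (hgap n' hn')
    have h6 : Nm (fun i => (((∑ i, n i • v i - ∑ i, n' i • v i) i : ℤ) : ℝ)) < 1 / 2 :=
      lt_of_le_of_lt h5 (by linarith)
    have h7 := gap_LL_eq_zero Nm h0 ((h1 _ h6 0 le_rfl).1 (hann _ hmem))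
    have h8 : ∑ i, (n i - n' i) • v i = 0 := by
      simp only [sub_smul, Finset.sum_sub_distrib]
      exact h7
    have h9 := Fintype.linearIndependent_iff.1 hli (fun i => n i - n' i) h8
    funext i
    exact sub_eq_zero.1 (h9 i)
  · have h3 : (BS Γ₀ ρ).card ≤ (4 * k ^ 3) ^ k * (Nat.card (ann S) * (box L).card) := by
      rw [card_box]
      calc (BS Γ₀ ρ).card ≤ (LL Nm ρ).ncard * Nat.card (ann S) := hA
        _ ≤ ((4 * k ^ 3) ^ k * ∏ i, (2 * L i + 1)) * Nat.card (ann S) := Nat.mul_le_mul_right _ hcard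
        _ = _ := by ring
    exact_mod_cast h3
  · intro y hy n hn
    rw [hev, mem_BS]
    intro g hg
    have h3 := gap_map_mem S Nm ψ' h1 hρ.le hρ6 (hgap n hn)
    have h4 : chi g ∈ S := ⟨g, hg, rfl⟩
    rw [← norm_chi, map_add, hy _ h4, zero_add]
    exact h3 _ h4

/-- **Bohr sets of any rank and of small radius** contain Bohr sets of small rank. -/
theorem latt (Γ₀ : Finset (ZMod N)) (ρ : ℝ) (hρ : 0 < ρ) (hρ6 : ρ ≤ 1 / 6) (M t : ℕ)
    (ht : (3 * M * t + 1) * ρ ≤ 1 / 6)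
    (hM : Real.log (N / (BS Γ₀ ρ).card) < M * Real.log (t + 1)) (R : ℝ) (hR : (M : ℝ) + 2 ≤ R) :
    ∃ Γ : Finset (ZMod N),
      (Γ.card : ℝ) ≤ 200 * M + 1 + 5 * (Real.log (N / (BS Γ₀ ρ).card) / Real.log R) ∧
      BS Γ (1 / (8 * R)) ⊆ BS Γ₀ ρ := by
  have hNpos : (0 : ℝ) < N := by exact_mod_cast Nat.pos_of_ne_zero (NeZero.ne N)
  have hBpos : (0 : ℝ) < (BS Γ₀ ρ).card := by exact_mod_cast (BS_nonempty Γ₀ hρ.le).card_pos
  obtain ⟨k, a, L, H, hkM, hprop, hcard, hsub⟩ := core Γ₀ ρ hρ hρ6 M t ht hM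
  have hkM' : (k : ℝ) ≤ M := by exact_mod_cast hkM.le
  have hM0 : (0 : ℝ) ≤ M := Nat.cast_nonneg _
  have hk0 : (0 : ℝ) ≤ k := Nat.cast_nonneg _
  have hR2 : 2 ≤ R := by linarith
  have hlogR : 0 < Real.log R := Real.log_pos (by linarith)
  obtain ⟨Γ, h1, h2⟩ := coset H a L hprop R (by linarith)
  refine ⟨Γ, ?_, ?_⟩
  · have hpow : (4 * (k : ℝ) ^ 3) ^ k ≤ R ^ (5 * M) := by
      have h3 : 4 * (k : ℝ) ^ 3 ≤ R ^ 5 := by
        calc 4 * (k : ℝ) ^ 3 ≤ R ^ 2 * R ^ 3 := by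
              have : (4 : ℝ) ≤ R ^ 2 := by nlinarith
              have h4 : (k : ℝ) ^ 3 ≤ R ^ 3 := by
                have : (k : ℝ) ≤ R := by linarith
                gcongr
              gcongr
          _ = R ^ 5 := by ring
      calc (4 * (k : ℝ) ^ 3) ^ k ≤ (R ^ 5) ^ k := by gcongr
        _ ≤ (R ^ 5) ^ M := by
            apply pow_le_pow_right₀ _ hkM.le
            exact one_le_pow₀ (by linarith)
        _ = R ^ (5 * M) := by rw [pow_mul]
    have hPpos : (0 : ℝ) < (Nat.card H : ℝ) * ((box L).card : ℝ) := by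
      by_contra hcon
      push Not at hcon
      have h5 : (4 * (k : ℝ) ^ 3) ^ k * ((Nat.card H : ℝ) * ((box L).card : ℝ)) ≤ 0 :=
        mul_nonpos_of_nonneg_of_nonpos (by positivity) hcon
      linarith
    have h3 : (N : ℝ) / ((Nat.card H : ℝ) * ((box L).card : ℝ)) ≤ N / (BS Γ₀ ρ).card * R ^ (5 * M) := by
      rw [div_mul_eq_mul_div, div_le_div_iff₀ hPpos hBpos]
      calc (N : ℝ) * (BS Γ₀ ρ).card ≤ N * ((4 * (k : ℝ) ^ 3) ^ k * (Nat.card H * (box L).card)) := by gcongr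
        _ ≤ N * (R ^ (5 * M) * (Nat.card H * (box L).card)) := by gcongr
        _ = N * R ^ (5 * M) * (Nat.card H * (box L).card) := by ring
    have h4 : Real.log ((N : ℝ) / ((Nat.card H : ℝ) * ((box L).card : ℝ))) ≤
        Real.log (N / (BS Γ₀ ρ).card) + 5 * M * Real.log R := by
      have h5 := Real.log_le_log (by positivity) h3
      rw [Real.log_mul (by positivity) (by positivity), Real.log_pow] at h5
      push_cast at h5
      exact h5
    have h6 : Real.log ((N : ℝ) / ((Nat.card H : ℝ) * ((box L).card : ℝ))) / Real.log R ≤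
        Real.log (N / (BS Γ₀ ρ).card) / Real.log R + 5 * M := by
      rw [div_le_iff₀ hlogR, add_mul, div_mul_cancel₀ _ hlogR.ne']
      exact h4
    calc (Γ.card : ℝ) ≤ 175 * k + 1 + 5 * (Real.log (N / (Nat.card H * (box L).card)) / Real.log R) := h1
      _ ≤ 175 * M + 1 + 5 * (Real.log (N / (BS Γ₀ ρ).card) / Real.log R + 5 * M) := by gcongr
      _ = 200 * M + 1 + 5 * (Real.log (N / (BS Γ₀ ρ).card) / Real.log R) := by ring
  · intro x hx
    obtain ⟨y, hy, n, hn, rfl⟩ := h2 x (mem_BS.1 hx)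
    exact hsub y hy n hn

end Pool.Agent.Q166.RF
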