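import Mathlib
import Pool.Agent.Q166.RF.Latt

/-!
# The rank-free form
-/

set_option autoImplicit false

namespace Pool.Agent.Q166.RF

open Finset Pool.Agent.TH858 Pool.Agent.TH858.GP

lemma log_card_nonneg {N : ℕ} [NeZero N] (Γ₀ : Finset (ZMod N)) (ρ : ℝ) (hρ : 0 < ρ) :
    0 ≤ Real.log (N / (BS Γ₀ ρ).card) := by
  have hBpos : (0 : ℝ) < (BS Γ₀ ρ).card := by exact_mod_cast (BS_nonempty Γ₀ hρ.le).card_pos
  apply Real.log_nonneg
  rw [le_div_iff₀ hBpos, one_mul]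
  have := Finset.card_le_univ (BS Γ₀ ρ)
  rw [ZMod.card] at this
  exact_mod_cast this

/-- **Rank reduction.** A Bohr set of any rank, of any radius `≤ 1/6` and of density `e^{-ℓ}` contains a Bohr set of
radius `1 / (8 R)` with at most `352 ℓ + 201` frequencies, for `R ≥ 8 ℓ + 3`. -/
theorem small {N : ℕ} [NeZero N] (Γ₀ : Finset (ZMod N)) (ρ : ℝ) (hρ : 0 < ρ) (hρ6 : ρ ≤ 1 / 6) (R : ℝ)
    (hR : 8 * Real.log (N / (BS Γ₀ ρ).card) + 3 ≤ R) :
    ∃ Γ : Finset (ZMod N),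
      (Γ.card : ℝ) ≤ 352 * Real.log (N / (BS Γ₀ ρ).card) + 201 ∧
      BS Γ (1 / (8 * R)) ⊆ BS Γ₀ ρ := by
  have hl0 := log_card_nonneg Γ₀ ρ hρ
  obtain ⟨l, hl⟩ : ∃ l : ℝ, l = Real.log (N / (BS Γ₀ ρ).card) := ⟨_, rfl⟩
  rw [← hl] at hl0 hR ⊢
  have hlog2 := Real.log_two_gt_d9
  have hlog2' : 0 < Real.log 2 := by linarith
  have hR3 : 3 ≤ R := by linarith
  have hlogR : 1 ≤ Real.log R := by
    rw [Real.le_log_iff_exp_le (by linarith)]
    have := Real.exp_one_lt_d9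
    linarith
  set M : ℕ := ⌊l / Real.log 2⌋₊ + 1 with hM
  have hM1 : l / Real.log 2 < M := by
    rw [hM]; push_cast; exact Nat.lt_floor_add_one _
  have hM2 : (M : ℝ) ≤ 1.45 * l + 1 := by
    rw [hM]; push_cast
    have h1 : (⌊l / Real.log 2⌋₊ : ℝ) ≤ l / Real.log 2 := Nat.floor_le (by positivity)
    have h2 : l / Real.log 2 ≤ 1.45 * l := by
      rw [div_le_iff₀ hlog2']
      nlinarith
    linarith
  have hM3 : l < M * Real.log 2 := by
    rwa [div_lt_iff₀ hlog2'] at hM1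
  by_cases hcase : (3 * (M : ℝ) * (1 : ℕ) + 1) * ρ ≤ 1 / 6
  · obtain ⟨Γ, h1, h2⟩ := latt Γ₀ ρ hρ hρ6 M 1 hcase (by
      rw [← hl]; push_cast
      have : (1 : ℝ) + 1 = 2 := by norm_num
      rw [this]; exact hM3) R (by linarith)
    refine ⟨Γ, ?_, h2⟩
    rw [← hl] at h1
    have h3 : l / Real.log R ≤ l := by
      rw [div_le_iff₀ (by linarith)]
      nlinarith
    linarith
  · push Not at hcase
    push_cast at hcase
    obtain ⟨Γ, h1, h2⟩ := reduction Γ₀ ρ hρ hρ6 R (by rw [← hl]; linarith)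
    refine ⟨Γ, ?_, h2⟩
    rw [← hl] at h1
    have h3 : 1 / ρ ≤ R ^ 3 := by
      rw [div_le_iff₀ hρ]
      have h4 : 1 < (6 * (3 * (M : ℝ) * 1 + 1)) * ρ := by linarith
      have h5 : 6 * (3 * (M : ℝ) * 1 + 1) ≤ 8 * R := by linarith
      have h6 : 8 * R ≤ R ^ 3 := by nlinarith [mul_nonneg (by linarith : (0:ℝ) ≤ R) (by nlinarith : (0:ℝ) ≤ R ^ 2 - 9)]
      have h7 : (6 * (3 * (M : ℝ) * 1 + 1)) * ρ ≤ R ^ 3 * ρ := by
        have := h5.trans h6
        gcongr
      linarith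
    have h4 : Real.log (1 / ρ) ≤ 3 * Real.log R := by
      have h5 := Real.log_le_log (by positivity) h3
      rw [Real.log_pow] at h5
      exact_mod_cast h5
    have h5 : Real.log (1 / ρ) / Real.log R ≤ 3 := by
      rw [div_le_iff₀ (by linarith)]; exact h4
    calc (Γ.card : ℝ) ≤ l * (256 + 32 * (Real.log (1 / ρ) / Real.log R)) := h1
      _ ≤ l * (256 + 32 * 3) := by gcongr
      _ ≤ 352 * l + 201 := by linarith

theorem forward (C : ℝ) (hC : 0 < C) : ∃ K c : ℝ, 0 < K ∧ 0 < c ∧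
    ∀ (N : ℕ) [NeZero N] (Γ₀ : Finset (ZMod N)) (ρ L : ℝ), 0 < ρ → Real.log 2 ≤ L → ρ ≤ (2 + L) ^ (-2 : ℝ) →
      Real.log (N / (BS Γ₀ ρ).card) ≤ C * L * Real.log (2 + L) →
      ∃ Γ : Finset (ZMod N), (Γ.card : ℝ) ≤ K * L ∧ BS Γ (c / L) ⊆ BS Γ₀ ρ := by
  set s₀ : ℝ := 72 * C + 42 with hs₀
  set V : ℝ := Real.log (s₀ ^ 2) with hV
  have hs₀1 : 42 ≤ s₀ := by rw [hs₀]; linarith
  have hVpos : 0 < V := Real.log_pos (by nlinarith)
  set K : ℝ := (410 * C + 302) + (352 * (C * V) + 302) with hK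
  set c : ℝ := min (1 / (8 * (2 * C + 5))) (1 / (8 * (8 * (C * V) + 5))) with hc
  refine ⟨K, c, by positivity, lt_min (by positivity) (by positivity), ?_⟩
  intro N _ Γ₀ ρ L hρ hL hρL hℓ
  have hlog2 := Real.log_two_gt_d9
  have hL0 : 0 < L := by linarith
  have hL5 : 3 ≤ 5 * L := by linarith
  have hl0 := log_card_nonneg Γ₀ ρ hρ
  obtain ⟨l, hl⟩ : ∃ l : ℝ, l = Real.log (N / (BS Γ₀ ρ).card) := ⟨_, rfl⟩
  rw [← hl] at hl0 hℓ
  have hu : (2 + L) ^ (-2 : ℝ) = 1 / (2 + L) ^ 2 := by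
    rw [Real.rpow_neg (by linarith), one_div]
    congr 1
    exact_mod_cast Real.rpow_natCast (2 + L) 2
  rw [hu] at hρL
  have hρ6 : ρ ≤ 1 / 6 := by
    refine hρL.trans ?_
    have : (6 : ℝ) ≤ (2 + L) ^ 2 := by nlinarith
    rw [div_le_div_iff₀ (by positivity) (by norm_num)]
    linarith
  have hmono : ∀ (Γ : Finset (ZMod N)) (B : ℝ), 0 < B → c ≤ 1 / (8 * B) → BS Γ (c / L) ⊆ BS Γ (1 / (8 * (B * L))) := by
    intro Γ B hB hcB
    apply BS_mono
    calc c / L ≤ (1 / (8 * B)) / L := by gcongr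
      _ = 1 / (8 * (B * L)) := by rw [div_div]; congr 1; ring
  rcases le_or_gt (s₀ ^ 2) (2 + L) with hcase | hcase
  · -- the main case
    set s : ℝ := Real.sqrt (2 + L) with hs
    have hs2 : s ^ 2 = 2 + L := Real.sq_sqrt (by linarith)
    have hss : s₀ ≤ s := by
      rw [hs]; exact Real.le_sqrt_of_sq_le hcase
    have hs1 : 42 ≤ s := by linarith
    set M : ℕ := ⌊2 * C * L⌋₊ + 1 with hM
    set t : ℕ := ⌈s⌉₊ with ht
    have hM1 : 2 * C * L < M := by
      rw [hM]; push_cast; exact Nat.lt_floor_add_one _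
    have hM2 : (M : ℝ) ≤ 2 * C * L + 1 := by
      rw [hM]; push_cast
      have h1 : (⌊2 * C * L⌋₊ : ℝ) ≤ 2 * C * L := Nat.floor_le (by positivity)
      linarith
    have ht1 : s ≤ t := Nat.le_ceil _
    have ht2 : (t : ℝ) ≤ 2 * s := by
      have := Nat.ceil_lt_add_one (show 0 ≤ s by linarith)
      rw [← ht] at this
      linarith
    have hcond : (3 * (M : ℝ) * t + 1) * ρ ≤ 1 / 6 := by
      have h1 : (M : ℝ) ≤ (2 * C + 1) * s ^ 2 := by
        have : 2 * C * L ≤ 2 * C * s ^ 2 := by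
          rw [hs2]; gcongr; linarith
        nlinarith
      have h2 : 3 * (M : ℝ) * t + 1 ≤ (12 * C + 7) * s ^ 3 := by
        calc 3 * (M : ℝ) * t + 1 ≤ 3 * ((2 * C + 1) * s ^ 2) * (2 * s) + 1 := by gcongr
          _ = (12 * C + 6) * s ^ 3 + 1 := by ring
          _ ≤ (12 * C + 6) * s ^ 3 + s ^ 3 := by
              have : 1 ≤ s ^ 3 := one_le_pow₀ (by linarith)
              linarith
          _ = (12 * C + 7) * s ^ 3 := by ring
      have h3 : ρ ≤ 1 / s ^ 4 := by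
        have : s ^ 4 = (2 + L) ^ 2 := by rw [← hs2]; ring
        rw [this]; exact hρL
      have hspos : 0 < s := by linarith
      calc (3 * (M : ℝ) * t + 1) * ρ ≤ ((12 * C + 7) * s ^ 3) * (1 / s ^ 4) := by gcongr
        _ = (12 * C + 7) / s := by field_simp
        _ ≤ (12 * C + 7) / s₀ := by gcongr
        _ = 1 / 6 := by rw [hs₀]; field_simp; ring
    have hlogt : 1 / 2 * Real.log (2 + L) ≤ Real.log ((t : ℝ) + 1) := by
      have h1 : Real.log (2 + L) = 2 * Real.log s := by rw [← hs2, Real.log_pow]; norm_num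
      rw [h1]
      have h2 : Real.log s ≤ Real.log ((t : ℝ) + 1) := Real.log_le_log (by linarith) (by linarith)
      linarith
    have hlogpos : 0 < Real.log (2 + L) := Real.log_pos (by linarith)
    have hMt : Real.log (N / (BS Γ₀ ρ).card) < M * Real.log (t + 1) := by
      rw [← hl]
      calc l ≤ C * L * Real.log (2 + L) := hℓ
        _ = (2 * C * L) * (1 / 2 * Real.log (2 + L)) := by ring
        _ < M * (1 / 2 * Real.log (2 + L)) := by gcongr
        _ ≤ M * Real.log (t + 1) := by gcongr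
    set R : ℝ := (2 * C + 5) * L with hR
    obtain ⟨Γ, h1, h2⟩ := latt Γ₀ ρ hρ hρ6 M t hcond hMt R (by rw [hR]; nlinarith)
    refine ⟨Γ, ?_, (hmono Γ (2 * C + 5) (by positivity) (min_le_left _ _)).trans h2⟩
    have hRL : 5 * L ≤ R := by rw [hR]; nlinarith
    have hR3 : 3 ≤ R := by linarith
    have hlogR : 0 < Real.log R := Real.log_pos (by linarith)
    have h6 : Real.log (2 + L) ≤ 2 * Real.log R := by
      have h7 : 2 + L ≤ R ^ 2 := by nlinarith
      have h8 := Real.log_le_log (by positivity) h7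
      rw [Real.log_pow] at h8
      exact_mod_cast h8
    have h7 : l / Real.log R ≤ 2 * (C * L) := by
      rw [div_le_iff₀ hlogR]
      calc l ≤ C * L * Real.log (2 + L) := hℓ
        _ ≤ C * L * (2 * Real.log R) := by gcongr
        _ = 2 * (C * L) * Real.log R := by ring
    rw [← hl] at h1
    have hCV : 0 < 352 * (C * V) + 302 := by positivity
    calc (Γ.card : ℝ) ≤ 200 * M + 1 + 5 * (l / Real.log R) := h1
      _ ≤ 200 * (2 * C * L + 1) + 1 + 5 * (2 * (C * L)) := by gcongr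
      _ = 410 * C * L + 201 := by ring
      _ ≤ 410 * C * L + 302 * L := by linarith
      _ ≤ K * L := by rw [hK]; nlinarith
  · -- bounded `L`
    have hℓ' : l ≤ C * V * L := by
      have h1 : Real.log (2 + L) ≤ V := Real.log_le_log (by linarith) hcase.le
      calc l ≤ C * L * Real.log (2 + L) := hℓ
        _ ≤ C * L * V := by gcongr
        _ = C * V * L := by ring
    set R : ℝ := (8 * (C * V) + 5) * L with hR
    obtain ⟨Γ, h1, h2⟩ := small Γ₀ ρ hρ hρ6 R (by rw [← hl, hR]; nlinarith)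
    refine ⟨Γ, ?_, (hmono Γ (8 * (C * V) + 5) (by positivity) (min_le_right _ _)).trans h2⟩
    rw [← hl] at h1
    have hCpos : 0 < 410 * C + 302 := by positivity
    calc (Γ.card : ℝ) ≤ 352 * l + 201 := h1
      _ ≤ 352 * (C * V * L) + 302 * L := by linarith
      _ ≤ K * L := by rw [hK]; nlinarith

theorem backward (K c : ℝ) (hK : 0 < K) (hc : 0 < c) : ∃ C : ℝ, 0 < C ∧
    ∀ (N : ℕ) [NeZero N] (Γ : Finset (ZMod N)) (ε L : ℝ), Real.log 2 ≤ L → (Γ.card : ℝ) ≤ K * L → c / L ≤ ε →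
      ∃ ρ : ℝ, 0 < ρ ∧ ρ ≤ (2 + L) ^ (-2 : ℝ) ∧ ρ ≤ ε ∧
        Real.exp (-(C * L * Real.log (2 + L))) * N ≤ ((BS Γ ρ).card : ℝ) := by
  have hlogc : 0 < Real.log (1 / c + 2) := Real.log_pos (by linarith [show 0 < 1 / c by positivity])
  refine ⟨K * (2 * Real.log (1 / c + 2) + 2), by positivity, ?_⟩
  intro N _ Γ ε L hL hΓ hε
  have hlog2 := Real.log_two_gt_d9
  have hL0 : 0 < L := by linarith
  have hNpos : (0 : ℝ) < N := by exact_mod_cast Nat.pos_of_ne_zero (NeZero.ne N)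
  have hu : (2 + L) ^ (-2 : ℝ) = 1 / (2 + L) ^ 2 := by
    rw [Real.rpow_neg (by linarith), one_div]
    congr 1
    exact_mod_cast Real.rpow_natCast (2 + L) 2
  set ρ : ℝ := min (c / L) (1 / (2 + L) ^ 2) with hρ
  have hρ0 : 0 < ρ := lt_min (by positivity) (by positivity)
  refine ⟨ρ, hρ0, by rw [hu]; exact min_le_right _ _, (min_le_left _ _).trans hε, ?_⟩
  set M : ℕ := ⌈1 / ρ⌉₊ with hM
  have hMpos : 0 < M := Nat.ceil_pos.2 (by positivity)
  have hMR : (0 : ℝ) < M := by exact_mod_cast hMpos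
  have hMle : (M : ℝ) ≤ (1 / c + 2) * (2 + L) ^ 2 := by
    have h1 : (M : ℝ) ≤ 1 / ρ + 1 := (Nat.ceil_lt_add_one (by positivity)).le
    have h2 : 1 / ρ ≤ (1 / c + 1) * (2 + L) ^ 2 := by
      rw [div_le_iff₀ hρ0]
      rcases min_choice (c / L) (1 / (2 + L) ^ 2) with h | h
      · rw [← hρ] at h
        rw [h]
        have h3 : (1 / c + 1) * (2 + L) ^ 2 * (c / L) = (2 + L) ^ 2 / L + c * ((2 + L) ^ 2 / L) := by
          field_simp
        rw [h3]
        have h4 : 1 ≤ (2 + L) ^ 2 / L := by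
          rw [le_div_iff₀ hL0]; nlinarith
        have h5 : 0 < c * ((2 + L) ^ 2 / L) := by positivity
        linarith
      · rw [← hρ] at h
        rw [h]
        have h3 : (1 / c + 1) * (2 + L) ^ 2 * (1 / (2 + L) ^ 2) = 1 / c + 1 := by
          field_simp
        rw [h3]
        linarith [show 0 < 1 / c by positivity]
    have h3 : 1 ≤ (2 + L) ^ 2 := by nlinarith
    calc (M : ℝ) ≤ 1 / ρ + 1 := h1
      _ ≤ (1 / c + 1) * (2 + L) ^ 2 + (2 + L) ^ 2 := by linarith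
      _ = (1 / c + 2) * (2 + L) ^ 2 := by ring
  have hMρ : 1 / (M : ℝ) ≤ ρ := by
    have h1 : 1 / ρ ≤ M := Nat.le_ceil _
    rw [div_le_iff₀ hρ0] at h1
    rw [div_le_iff₀ hMR]
    linarith
  have h1 := card_BS Γ M hMpos
  have h2 : ((BS Γ (1 / M)).card : ℝ) ≤ (BS Γ ρ).card := by
    exact_mod_cast Finset.card_le_card (BS_mono Γ hMρ)
  have h3 : (M : ℝ) ^ Γ.card ≤ Real.exp (K * (2 * Real.log (1 / c + 2) + 2) * L * Real.log (2 + L)) := by
    rw [← Real.log_le_iff_le_exp (by positivity), Real.log_pow]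
    have h4 : Real.log M ≤ (2 * Real.log (1 / c + 2) + 2) * Real.log (2 + L) := by
      have h5 := Real.log_le_log hMR hMle
      rw [Real.log_mul (by positivity) (by positivity), Real.log_pow] at h5
      push_cast at h5
      have h6 : 1 / 2 ≤ Real.log (2 + L) := by
        have : Real.log 2 ≤ Real.log (2 + L) := Real.log_le_log (by norm_num) (by linarith)
        linarith
      nlinarith
    have hM1 : 0 ≤ Real.log M := Real.log_natCast_nonneg M
    calc (Γ.card : ℝ) * Real.log M ≤ (K * L) * ((2 * Real.log (1 / c + 2) + 2) * Real.log (2 + L)) := by gcongr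
      _ = _ := by ring
  rw [Real.exp_neg, inv_mul_le_iff₀ (Real.exp_pos _)]
  calc (N : ℝ) ≤ M ^ Γ.card * (BS Γ (1 / M)).card := h1
    _ ≤ Real.exp (K * (2 * Real.log (1 / c + 2) + 2) * L * Real.log (2 + L)) * (BS Γ ρ).card := by gcongr

end Pool.Agent.Q166.RF
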